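import Pool.Agent.Lib.helper29.FM3

open MeasureTheory FourierTransform Filter Topology
open scoped Convolution
open Pool.Agent.Lib.H29.FM

namespace Pool.Agent.Results.MP_831e37_an.Exists

/-- `K_2(ℝ^d)`, the span of the convolutions `f * h` with `f, h ∈ C_c(ℝ^d)`. -/
def K2 (d : ℕ) : Submodule ℂ (E d → ℂ) :=
  Submodule.span ℂ {g | ∃ f h : E d → ℂ, IsCc f ∧ IsCc h ∧ g = f ⋆[ContinuousLinearMap.mul ℂ ℂ] h}

/-- `ν` is the Fourier transform of `μ`: for every `g ∈ K_2`, the inverse Fourier transform of `g`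
lies in `L¹(|ν|)` and `μ(g) = ν(g^∨)`. -/
def IsFT {d : ℕ} (μ ν : CMeas d) : Prop :=
  ∀ g ∈ K2 d, Integrable (𝓕⁻ g) ν.m ∧ μ.act g = ν.act (𝓕⁻ g)

lemma K2_int {d : ℕ} {g : E d → ℂ} (hg : g ∈ K2 d) : Integrable g := by
  refine Submodule.span_induction (p := fun g _ => Integrable g) ?_ ?_ ?_ ?_ hg
  · rintro g ⟨f, h, hf, hh, rfl⟩
    exact hf.integrable.integrable_convolution _ hh.integrable
  · exact integrable_zero _ _ _
  · intro x y _ _ hx hy
    exact hx.add hy
  · intro c x _ hx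
    exact hx.smul c

theorem result (d : ℕ) (hd : 1 ≤ d) :
    ∃ (ν νhat : ℕ → CMeas d) (μ : CMeas d), (∀ n, IsFT (ν n) (νhat n)) ∧
      (∃ g : E d → ℂ, IsCc g ∧ μ.act g ≠ 0) ∧
      (∀ g : E d → ℂ, IsCc g → Tendsto (fun n => (ν n).act g) atTop (𝓝 0)) ∧
      (∀ g : E d → ℂ, IsCc g → Tendsto (fun n => (νhat n).act g) atTop (𝓝 (μ.act g))) := by
  obtain ⟨W, hc, hW, h0, h1⟩ := exists_W d
  choose w wc wi w0 w1 using exists_approx hd hc hW h0
  have hR : ∀ g : E d → ℂ, IsCc g → ∃ N : ℕ, ∀ x, (N : ℝ) < ‖x‖ → g x = 0 := by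
    intro g hg
    obtain ⟨R, hR⟩ := hg.2.isCompact.isBounded.subset_closedBall 0
    obtain ⟨N, hN⟩ := exists_nat_ge R
    refine ⟨N, fun x hx => ?_⟩
    by_contra h
    have := hR (subset_tsupport _ (Function.mem_support.mpr h))
    rw [mem_closedBall_zero_iff] at this
    linarith
  refine ⟨fun n => ofDens (𝓕⁻ (w n)) (cont_inv (wi n)), fun n => ofDens (w n) (wc n),
    ofDens W hc, ?_, ?_, ?_, ?_⟩
  · intro n g hg
    refine ⟨memLp_one_iff_integrable.mp (memLp_inv (K2_int hg) (wc n) (wi n) 1), ?_⟩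
    rw [ofDens_act, ofDens_act, swap (K2_int hg) (wi n)]
  · obtain ⟨x, hx⟩ : ∃ x, W x ≠ 0 := by
      by_contra hc2
      push Not at hc2
      rw [Real.fourierInv_eq] at h1
      simp [hc2] at h1
    let χ : ContDiffBump x := ⟨1, 2, by norm_num, by norm_num⟩
    have hχc : Continuous (fun y => ((χ y : ℝ) : ℂ)) := Complex.continuous_ofReal.comp χ.continuous
    have hχs : HasCompactSupport (fun y => ((χ y : ℝ) : ℂ)) :=
      χ.hasCompactSupport.comp_left (g := fun t : ℝ => (t : ℂ)) (by simp)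
    refine ⟨fun y => ((χ y : ℝ) : ℂ) * (starRingEnd ℂ) (W y),
      ⟨hχc.mul (Complex.continuous_conj.comp hc), hχs.mul_right⟩, ?_⟩
    rw [ofDens_act]
    have hJ0 : 0 < ∫ y, χ y * ‖W y‖ ^ 2 := by
      refine Continuous.integral_pos_of_hasCompactSupport_nonneg_nonzero (x := x)
        (χ.continuous.mul (hc.norm.pow 2)) χ.hasCompactSupport.mul_right
        (fun y => mul_nonneg χ.nonneg (by positivity)) ?_
      have : χ x = 1 := χ.one_of_mem_closedBall (by simp [χ])
      simp [this, hx]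
    have e : ∫ y, ((χ y : ℝ) : ℂ) * (starRingEnd ℂ) (W y) * W y
        = ((∫ y, χ y * ‖W y‖ ^ 2 : ℝ) : ℂ) := by
      rw [← integral_complex_ofReal]
      congr 1
      ext y
      rw [mul_assoc, Complex.conj_mul']
      push_cast
      ring
    rw [e]
    exact_mod_cast hJ0.ne'
  · intro g hg
    obtain ⟨N, hN⟩ := hR g hg
    refine tendsto_const_nhds.congr' ?_
    filter_upwards [eventually_ge_atTop N] with n hn
    rw [ofDens_act]
    symm
    refine (integral_congr_ae (Eventually.of_forall fun x => ?_)).trans (integral_zero _ _)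
    have hn' : (N : ℝ) ≤ n := by exact_mod_cast hn
    by_cases hx : (N : ℝ) < ‖x‖
    · simp [hN x hx]
    · simp [w0 n x (by linarith [not_lt.mp hx])]
  · intro g hg
    obtain ⟨N, hN⟩ := hR g hg
    simp only [ofDens_act]
    rw [tendsto_iff_norm_sub_tendsto_zero]
    have hi : ∀ u : E d → ℂ, Continuous u → Integrable (fun x => g x * u x) := fun u hu =>
      (hg.1.mul hu).integrable_of_hasCompactSupport hg.2.mul_right
    have hlim : Tendsto (fun n : ℕ => (∫ x, ‖g x * W x‖) * (1 / ((n : ℝ) + 1))) atTop (𝓝 0) := by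
      simpa using (tendsto_one_div_add_atTop_nhds_zero_nat (𝕜 := ℝ)).const_mul
        (∫ x, ‖g x * W x‖)
    refine squeeze_zero' (Eventually.of_forall fun n => norm_nonneg _) ?_ hlim
    filter_upwards [eventually_ge_atTop N] with n hn
    have hn' : (N : ℝ) ≤ n := by exact_mod_cast hn
    rw [← integral_sub (hi _ (wc n)) (hi _ hc), ← integral_mul_const]
    refine (norm_integral_le_integral_norm _).trans ?_
    refine integral_mono_of_nonneg (Eventually.of_forall fun x => norm_nonneg _)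
      ((hi _ hc).norm.mul_const _) (Eventually.of_forall fun x => ?_)
    simp only
    by_cases hx : (N : ℝ) < ‖x‖
    · simp [hN x hx]
    · rw [← mul_sub, norm_mul, norm_mul, mul_assoc]
      gcongr
      exact w1 n x (by linarith [not_lt.mp hx])

end Pool.Agent.Results.MP_831e37_an.Exists
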